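import Pool.Agent.K1H32.TD.Stm

/-!
# Convergence of determinants `det (1 + ∑ c_α x_α ⊗ y_α)` (`Pool.Agent.K1H32.TD.S_FD`)
-/

set_option autoImplicit false

namespace Pool.Agent.K1H31.TD

open Filter Topology Finset Matrix
open Classical

/-- expansion into principal minors -/
lemma det_one_add {n : Type} [Fintype n] [DecidableEq n] (A : Matrix n n ℂ) :
    det (1 + A) = ∑ s : Finset n, (A.submatrix (Subtype.val : s → n) (Subtype.val : s → n)).det := by
  let D := (detRowAlternating : (n → ℂ) [⋀^n]→ₗ[ℂ] ℂ)
  rw [add_comm]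
  have h1 : det (A + 1) = D ((fun i => A i) + (fun i => (1 : Matrix n n ℂ) i)) := rfl
  rw [h1, D.map_add_univ]
  refine Finset.sum_congr rfl fun s _ => ?_
  rw [← det_piecewise_one_eq_submatrix_det A s]
  change det _ = det _
  congr 1

/-- the term of the expansion -/
noncomputable def term {ι : Type} (c : ι → ℂ) (g : ι → ι → ℂ) (F : Finset ι) : ℂ :=
  (∏ a ∈ F, c a) * det (Matrix.of fun a b : F => g a b)

/-- the expansion for a finite set of indices -/
lemma expand {ι : Type} {n : ℕ} (c : ι → ℂ) (x y : ι → Fin n → ℂ) (S : Finset ι) :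
    det (1 + Matrix.of fun j k => ∑ a ∈ S, c a * x a j * y a k) =
      ∑ F ∈ S.powerset, term c (fun a b => ∑ j, y a j * x b j) F := by
  set X : Matrix (Fin n) S ℂ := Matrix.of fun j a => c a * x a j with hX
  set Y : Matrix S (Fin n) ℂ := Matrix.of fun a k => y a k with hY
  have h1 : (Matrix.of fun j k => ∑ a ∈ S, c a * x a j * y a k) = X * Y := by
    ext j k
    rw [Matrix.mul_apply, Matrix.of_apply, ← Finset.sum_coe_sort]
    rfl
  rw [h1, Matrix.det_one_add_mul_comm, det_one_add]
  refine Finset.sum_bij (fun F _ => F.map (Function.Embedding.subtype (· ∈ S))) ?_ ?_ ?_ ?_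
  · intro F _
    rw [Finset.mem_powerset]
    intro a ha
    rw [Finset.mem_map] at ha
    obtain ⟨b, _, rfl⟩ := ha
    exact b.2
  · intro F _ F' _ h
    exact Finset.map_injective _ h
  · intro F hF
    rw [Finset.mem_powerset] at hF
    refine ⟨F.subtype (· ∈ S), Finset.mem_univ _, ?_⟩
    exact Finset.subtype_map_of_mem hF
  · intro F _
    unfold term
    have e1 : ∏ a ∈ F.map (Function.Embedding.subtype (· ∈ S)), c a = ∏ a : F, c (a : S) := by
      rw [Finset.prod_map, ← Finset.prod_coe_sort]
      rfl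
    let e : F ≃ (F.map (Function.Embedding.subtype (· ∈ S)) : Finset ι) :=
      Equiv.ofBijective (fun a => ⟨((a : S) : ι), Finset.mem_map.2 ⟨a, a.2, rfl⟩⟩) (by
        constructor
        · intro a b hab
          simp only [Subtype.mk.injEq] at hab
          exact Subtype.ext (Subtype.ext hab)
        · rintro ⟨b, hb⟩
          obtain ⟨a, ha, rfl⟩ := Finset.mem_map.1 hb
          exact ⟨⟨a, ha⟩, rfl⟩)
    rw [e1, ← Matrix.det_submatrix_equiv_self e]
    have e2 : ((Y * X).submatrix (Subtype.val : F → S) (Subtype.val : F → S)) =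
        Matrix.of fun a b : F => c (b : S) * ((Matrix.of fun a b :
          (F.map (Function.Embedding.subtype (· ∈ S)) : Finset ι) =>
          ∑ j, y a j * x b j).submatrix e e) a b := by
      ext a b
      simp only [Matrix.submatrix_apply, Matrix.mul_apply, Matrix.of_apply, hX, hY]
      rw [Finset.mul_sum]
      refine Finset.sum_congr rfl fun j _ => ?_
      have ea : ((e a : (F.map (Function.Embedding.subtype (· ∈ S)) : Finset ι)) : ι) = a := rfl
      have eb : ((e b : (F.map (Function.Embedding.subtype (· ∈ S)) : Finset ι)) : ι) = b := rfl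
      rw [ea, eb]
      ring
    rw [e2, Matrix.det_mul_row]

lemma fact_le : ∀ T : Finset ℕ, ((T.card).factorial : ℝ) ≤ ∏ m ∈ T, ((m : ℝ) + 1) := by
  intro T
  induction T using Finset.induction_on_max with
  | empty => simp
  | insert a s ha ih =>
    have hnot : a ∉ s := fun h => lt_irrefl a (ha a h)
    rw [Finset.card_insert_of_notMem hnot, Finset.prod_insert hnot, Nat.factorial_succ]
    have hcard : s.card ≤ a := by
      have : s ⊆ Finset.range a := fun x hx => Finset.mem_range.2 (ha x hx)
      simpa using Finset.card_le_card this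
    push_cast
    have : (s.card : ℝ) ≤ a := by exact_mod_cast hcard
    exact mul_le_mul (by linarith) ih (by positivity) (by positivity)

lemma term_bound {ι : Type} {ν : ι → ℕ} (hν : Function.Injective ν) (c : ι → ℂ) {B : ℝ}
    (hB : 0 ≤ B) {g : ι → ι → ℂ} (hg : ∀ a b, ‖g a b‖ ≤ B) (F : Finset ι) :
    ‖term c g F‖ ≤ ∏ a ∈ F, (B * (((ν a : ℝ) + 1) * ‖c a‖)) := by
  unfold term
  rw [norm_mul, norm_prod]
  have h1 : ‖det (Matrix.of fun a b : F => g a b)‖ ≤ (F.card.factorial : ℝ) * B ^ F.card := by
    have := Matrix.det_le (A := Matrix.of fun a b : F => g a b)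
      (abv := NormedField.toAbsoluteValue ℂ) (x := B) (fun i j => hg _ _)
    rw [Fintype.card_coe, nsmul_eq_mul] at this
    exact this
  have h2 : (F.card.factorial : ℝ) ≤ ∏ a ∈ F, ((ν a : ℝ) + 1) := by
    have := fact_le (F.map ⟨ν, hν⟩)
    rw [Finset.card_map, Finset.prod_map] at this
    exact this
  have h0 : 0 ≤ ∏ a ∈ F, ‖c a‖ := Finset.prod_nonneg fun _ _ => norm_nonneg _
  calc (∏ a ∈ F, ‖c a‖) * ‖det (Matrix.of fun a b : F => g a b)‖
      ≤ (∏ a ∈ F, ‖c a‖) * ((∏ a ∈ F, ((ν a : ℝ) + 1)) * B ^ F.card) := by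
        refine mul_le_mul_of_nonneg_left (h1.trans ?_) h0
        exact mul_le_mul_of_nonneg_right h2 (by positivity)
    _ = ∏ a ∈ F, (B * (((ν a : ℝ) + 1) * ‖c a‖)) := by
        rw [Finset.prod_mul_distrib, Finset.prod_mul_distrib, Finset.prod_const]
        ring

theorem t_FD : Pool.Agent.K1H32.TD.S_FD := by
  intro ι ν hν c hc B x y M h1 h2 h3
  choose l hl using h3
  set B' := max B 0 with hB'
  have hB0 : 0 ≤ B' := le_max_right _ _
  set bound : Finset ι → ℝ := fun F => ∏ a ∈ F, (B' * (((ν a : ℝ) + 1) * ‖c a‖)) with hbound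
  have hsum : Summable bound := by
    apply summable_finsetProd_of_summable_nonneg
    · intro a
      positivity
    · exact hc.mul_left B'
  set T : ℕ → Finset ι → ℂ := fun n => term c (fun a b => ∑ j, y n a j * x n b j) with hT
  have hdom : ∀ᶠ n in atTop, ∀ F, ‖T n F‖ ≤ bound F := by
    filter_upwards [h2] with n hn F
    exact term_bound hν c hB0 (fun a b => (hn a b).trans (le_max_left _ _)) F
  have hdet : ∀ᶠ n in atTop, ∑' F, T n F = det (1 + M n) := by
    filter_upwards [h1, hdom] with n hn hd
    have hs : Summable (T n) := Summable.of_norm_bounded hsum hd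
    have t1 : Tendsto (fun S : Finset ι => ∑ F ∈ S.powerset, T n F) atTop (𝓝 (∑' F, T n F)) :=
      hs.hasSum.comp tendsto_finset_powerset_atTop_atTop
    have t2 : Tendsto (fun S : Finset ι =>
        det (1 + Matrix.of fun j k => ∑ a ∈ S, c a * x n a j * y n a k)) atTop
        (𝓝 (det (1 + M n))) := by
      have hcont : Continuous fun A : Matrix (Fin n) (Fin n) ℂ => det (1 + A) := by
        fun_prop
      refine (hcont.tendsto (M n)).comp ?_
      exact tendsto_pi_nhds.2 fun j => tendsto_pi_nhds.2 fun k => hn j k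
    have t3 : (fun S : Finset ι =>
        det (1 + Matrix.of fun j k => ∑ a ∈ S, c a * x n a j * y n a k)) =
        fun S : Finset ι => ∑ F ∈ S.powerset, T n F := by
      funext S
      exact expand c (x n) (y n) S
    rw [t3] at t2
    exact tendsto_nhds_unique t1 t2
  have hlim : ∀ F, Tendsto (fun n => T n F) atTop (𝓝 (term c l F)) := by
    intro F
    refine Tendsto.const_mul _ ?_
    have hcont : Continuous fun A : Matrix F F ℂ => det A := by fun_prop
    refine (hcont.tendsto _).comp ?_
    exact tendsto_pi_nhds.2 fun a => tendsto_pi_nhds.2 fun b => hl a b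
  have hmain := tendsto_tsum_of_dominated_convergence hsum hlim hdom
  exact ⟨_, hmain.congr' hdet⟩

end Pool.Agent.K1H31.TD
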